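import Pool.Agent.Lib.ALX.L8

/-!
# Alexandrov's isodiametric inequality with the constant `2 π / 3` for all convex surfaces

`K` is an arbitrary compact convex body in Euclidean three space (no smoothness and no symmetry is
assumed; the body bounded by a compact smooth surface of nonnegative curvature is a special case). Then the
area of the boundary is at most `2 π / 3` times the square of the inner diameter. As in the frozen statement
of the problem, the area is `(π/4) μH[2]` and inner distances are infima of the variations of continuous
curves inside the boundary.
-/

open scoped MeasureTheory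
open MeasureTheory

namespace Pool.Agent.Results.MP_7f789e_gt.AllConvexTwoThirds

/-- Every compact convex body in Euclidean three space satisfies `Area(∂K) ≤ (2 π / 3) D²`, where `D` is the
inner diameter of `∂K`. -/
theorem result :
    ∀ K : Set (EuclideanSpace ℝ (Fin 3)), IsCompact K → Convex ℝ K → (interior K).Nonempty →
      ENNReal.ofReal (Real.pi / 4) * μH[2] (frontier K) ≤
        ENNReal.ofReal (2 * Real.pi / 3) *
          (⨆ x ∈ frontier K, ⨆ y ∈ frontier K,
            ⨅ (γ : ℝ → EuclideanSpace ℝ (Fin 3)) (_ : Continuous γ) (_ : γ 0 = x) (_ : γ 1 = y)
              (_ : ∀ t ∈ Set.Icc (0:ℝ) 1, γ t ∈ frontier K),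
              eVariationOn γ (Set.Icc (0:ℝ) 1)) ^ 2 :=
  fun _ hK hv hi => ALX.body_T1 hK hv hi

end Pool.Agent.Results.MP_7f789e_gt.AllConvexTwoThirds
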