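import Pool.Agent.Lib.H47A.FMain

/-!
# Alexandrov's isodiametric inequality for all centrally symmetric convex surfaces

`K` is an arbitrary compact convex body in Euclidean three space which is symmetric about a point `c`
(no smoothness is assumed; the boundary of a body bounded by a compact smooth surface of nonnegative
curvature is a special case). Then the area of the boundary is at most `π/2` times the square of the
supremum of the inner distances between antipodal boundary points `x` and `2 c - x`; in particular it is at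
most `π/2` times the square of the inner diameter, which is Alexandrov's inequality. As in the frozen
statement of the problem, the area is `(π/4) μH[2]` and inner distances are infima of the variations of
continuous curves inside the boundary.
-/

open scoped MeasureTheory
open MeasureTheory

namespace Pool.Agent.Results.MP_7f789e_gt.CentrallySymmetric

/-- Every convex body in Euclidean three space with a centre of symmetry `c` satisfies
`Area(∂K) ≤ (π/2) sup_x d(x, 2c - x)²`, where `d` is the inner distance of `∂K`, and hence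
`Area(∂K) ≤ (π/2) D²`, where `D` is the inner diameter. -/
theorem result :
    ∀ (K : Set (EuclideanSpace ℝ (Fin 3))) (c : EuclideanSpace ℝ (Fin 3)), IsCompact K → Convex ℝ K →
      (interior K).Nonempty → (∀ x ∈ K, (2 : ℝ) • c - x ∈ K) →
      ENNReal.ofReal (Real.pi / 4) * μH[2] (frontier K) ≤
        ENNReal.ofReal (Real.pi / 2) *
          (⨆ x ∈ frontier K,
            ⨅ (γ : ℝ → EuclideanSpace ℝ (Fin 3)) (_ : Continuous γ) (_ : γ 0 = x) (_ : γ 1 = (2 : ℝ) • c - x)
              (_ : ∀ t ∈ Set.Icc (0:ℝ) 1, γ t ∈ frontier K),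
              eVariationOn γ (Set.Icc (0:ℝ) 1)) ^ 2 ∧
      ENNReal.ofReal (Real.pi / 4) * μH[2] (frontier K) ≤
        ENNReal.ofReal (Real.pi / 2) *
          (⨆ x ∈ frontier K, ⨆ y ∈ frontier K,
            ⨅ (γ : ℝ → EuclideanSpace ℝ (Fin 3)) (_ : Continuous γ) (_ : γ 0 = x) (_ : γ 1 = y)
              (_ : ∀ t ∈ Set.Icc (0:ℝ) 1, γ t ∈ frontier K),
              eVariationOn γ (Set.Icc (0:ℝ) 1)) ^ 2 := by
  intro K c hK hv hi hs
  have h1 := H47A.sym_center hK hv hi c hs
  refine ⟨h1, h1.trans ?_⟩
  have hinv : ∀ x, (2 : ℝ) • c - ((2 : ℝ) • c - x) = x := fun x => by abel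
  have himg : (fun x => (2 : ℝ) • c - x) '' K = K := by
    ext y
    constructor
    · rintro ⟨x, hx, rfl⟩
      exact hs x hx
    · intro hy
      exact ⟨_, hs y hy, hinv y⟩
  have hfr : ∀ x ∈ frontier K, (2 : ℝ) • c - x ∈ frontier K := by
    intro x hx
    let e : EuclideanSpace ℝ (Fin 3) ≃ₜ EuclideanSpace ℝ (Fin 3) := Homeomorph.subLeft ((2 : ℝ) • c)
    have h2 : e '' K = K := himg
    have h3 : e '' frontier K = frontier K := by
      rw [e.image_frontier, h2]
    rw [← h3]
    exact ⟨x, hx, rfl⟩
  have h4 : (⨆ x ∈ frontier K, H47A.pl (frontier K) x ((2 : ℝ) • c - x)) ≤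
      ⨆ x ∈ frontier K, ⨆ y ∈ frontier K, H47A.pl (frontier K) x y :=
    iSup₂_le fun x hx => le_iSup₂_of_le x hx (le_iSup₂_of_le ((2 : ℝ) • c - x) (hfr x hx) le_rfl)
  have h5 : ENNReal.ofReal (Real.pi / 2) * (⨆ x ∈ frontier K, H47A.pl (frontier K) x ((2 : ℝ) • c - x)) ^ 2 ≤
      ENNReal.ofReal (Real.pi / 2) * (⨆ x ∈ frontier K, ⨆ y ∈ frontier K, H47A.pl (frontier K) x y) ^ 2 := by
    gcongr
  exact h5

end Pool.Agent.Results.MP_7f789e_gt.CentrallySymmetric
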